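import Mathlib
import Pool.Agent.H98.Wall1
import Pool.Agent.H98.Wall2

/-! The escape speed on a Coxeter group is a concave function of the rates. -/

namespace Pool.Agent.Results.MP_47d77c_pr.Concave

open Finset Filter Topology Pool.Agent.H98.Wall

/-- Probability that by time `t` the walk with rates `r` has made exactly `n` jumps, across edges
labelled `w 0, …, w (n-1)` in this order. -/
noncomputable def jumpProb {B : Type} [Fintype B] (r : B → ℝ) (t : ℝ) (n : ℕ) (w : Fin n → B) :
    ℝ :=
  Real.exp (-(∑ s, r s) * t) * (t ^ n / n.factorial) * ∏ i, r (w i)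

/-- The expected word length `E |Z_t|` of the continuous-time walk started at the identity. -/
noncomputable def meanDist {B W : Type} [Fintype B] [Group W] {M : CoxeterMatrix B}
    (cs : CoxeterSystem M W) (r : B → ℝ) (t : ℝ) : ℝ :=
  ∑' n : ℕ, ∑ w : Fin n → B, jumpProb r t n w * (cs.length (cs.wordProd (List.ofFn w)) : ℝ)

variable {B W : Type} [Fintype B] [Group W] {M : CoxeterMatrix B} (cs : CoxeterSystem M W)

lemma words (r : B → ℝ) (f : W → ℝ) (n : ℕ) : ∀ g : W,
    ∑ w : Fin n → B, (∏ i, r (w i)) * f (g * cs.wordProd (List.ofFn w)) =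
      (P cs.simple r)^[n] f g := by
  induction n with
  | zero => intro g; simp
  | succ n ih =>
    intro g
    rw [Function.iterate_succ_apply', P, ← (Fin.consEquiv (fun _ : Fin (n + 1) => B)).sum_comp,
      Fintype.sum_prod_type]
    refine sum_congr rfl fun s _ => ?_
    rw [← ih, mul_sum]
    refine sum_congr rfl fun w _ => ?_
    simp [Fin.consEquiv, Fin.prod_univ_succ, List.ofFn_succ, cs.wordProd_cons, mul_assoc]

lemma P_scale (u : B → W) (μ : B → ℝ) (R : ℝ) (f : W → ℝ) (n : ℕ) : ∀ g : W,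
    (P u (fun s => R * μ s))^[n] f g = R ^ n * (P u μ)^[n] f g := by
  induction n with
  | zero => intro g; simp
  | succ n ih =>
    intro g
    rw [Function.iterate_succ_apply', Function.iterate_succ_apply', P, P, mul_sum]
    refine sum_congr rfl fun s _ => ?_
    rw [ih]
    ring

lemma pois0 (x : ℝ) : HasSum (fun n : ℕ => Real.exp (-x) * (x ^ n / n.factorial)) 1 := by
  have h := (NormedSpace.expSeries_div_hasSum_exp x).mul_left (Real.exp (-x))
  rw [← Real.exp_eq_exp_ℝ, ← Real.exp_add, neg_add_cancel, Real.exp_zero] at h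
  exact h

lemma pois1 (x : ℝ) : HasSum (fun n : ℕ => Real.exp (-x) * (x ^ n / n.factorial) * n) x := by
  rw [← hasSum_nat_add_iff' 1]
  have h := (pois0 x).mul_left x
  simp only [sum_range_one, Nat.cast_zero, mul_zero, sub_zero]
  rw [mul_one] at h
  refine h.congr_fun ?_
  intro n
  rw [Nat.factorial_succ]
  push_cast
  field_simp
  ring

lemma pois_bounds (x : ℝ) (hx : 0 ≤ x) (a : ℕ → ℝ) (Φ D C : ℝ) (hΦ : 0 ≤ Φ)
    (h1 : ∀ n : ℕ, n * Φ ≤ a n) (h2 : ∀ n : ℕ, a n ≤ n * D + C) :
    x * Φ ≤ ∑' n : ℕ, Real.exp (-x) * (x ^ n / n.factorial) * a n ∧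
      ∑' n : ℕ, Real.exp (-x) * (x ^ n / n.factorial) * a n ≤ x * D + C := by
  have hp : ∀ n : ℕ, 0 ≤ Real.exp (-x) * (x ^ n / n.factorial) := fun n => by positivity
  have hl := (pois1 x).mul_right Φ
  have hu := ((pois1 x).mul_right D).add ((pois0 x).mul_right C)
  rw [one_mul] at hu
  have b1 : ∀ n : ℕ, Real.exp (-x) * (x ^ n / n.factorial) * n * Φ ≤
      Real.exp (-x) * (x ^ n / n.factorial) * a n := fun n => by
    rw [mul_assoc]
    exact mul_le_mul_of_nonneg_left (h1 n) (hp n)
  have b2 : ∀ n : ℕ, Real.exp (-x) * (x ^ n / n.factorial) * a n ≤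
      Real.exp (-x) * (x ^ n / n.factorial) * n * D +
        Real.exp (-x) * (x ^ n / n.factorial) * C := fun n => by
    rw [mul_assoc _ (n : ℝ), ← mul_add]
    exact mul_le_mul_of_nonneg_left (h2 n) (hp n)
  have hs : Summable fun n : ℕ => Real.exp (-x) * (x ^ n / n.factorial) * a n :=
    Summable.of_nonneg_of_le (fun n => mul_nonneg (hp n)
      ((mul_nonneg (Nat.cast_nonneg n) hΦ).trans (h1 n))) b2 hu.summable
  exact ⟨hasSum_le b1 hl hs.hasSum, hasSum_le b2 hs.hasSum hu⟩

/-- The length as a real function. -/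
noncomputable def len (g : W) : ℝ := cs.length g

/-- Energy of a finitely supported signed measure at rates `r`. -/
noncomputable def energy (r : B → ℝ) (ν : {ν : W →₀ ℝ // mass ν = 1}) : ℝ :=
  ∑ s, r s * en (len cs) (cs.simple s) ν.1

instance : Nonempty {ν : W →₀ ℝ // mass ν = 1} := ⟨⟨Finsupp.single 1 1, mass_single _ _⟩⟩

omit [Fintype B] in
lemma len_inv (g : W) : len cs g⁻¹ = len cs g := by simp [len]

lemma energy_nonneg (r : B → ℝ) (hr : ∀ s, 0 ≤ r s) (ν) : 0 ≤ energy cs r ν :=
  sum_nonneg fun s _ => mul_nonneg (hr s)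
    (en_nonneg (len cs) (len_inv cs) (cnd cs) cs.simple cs.simple_mul_simple_self s _)

lemma bdd (r : B → ℝ) (hr : ∀ s, 0 ≤ r s) : BddBelow (Set.range (energy cs r)) :=
  ⟨0, by rintro _ ⟨ν, rfl⟩; exact energy_nonneg cs r hr ν⟩

lemma mean_bounds (r : B → ℝ) (hr : ∀ s, 0 < r s) (ν) : ∃ C : ℝ, ∀ t, 0 ≤ t →
    t * (⨅ ν, energy cs r ν) ≤ meanDist cs r t ∧ meanDist cs r t ≤ t * energy cs r ν + C := by
  have hm : ∀ t, meanDist cs r t = ∑' n : ℕ, Real.exp (-(∑ s, r s) * t) * (t ^ n / n.factorial) *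
      (P cs.simple r)^[n] (len cs) 1 := by
    intro t
    unfold meanDist
    congr 1
    funext n
    rw [← words, mul_sum]
    refine sum_congr rfl fun w _ => ?_
    simp [jumpProb, len, mul_assoc]
  rcases isEmpty_or_nonempty B with hB | hB
  · refine ⟨0, fun t _ => ?_⟩
    have h0 : meanDist cs r t = 0 := by
      rw [hm]
      have : ∀ n : ℕ, (P cs.simple r)^[n] (len cs) 1 = 0 := by
        intro n
        cases n with
        | zero => simp [len]
        | succ n => rw [Function.iterate_succ_apply']; simp [P]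
      simp [this]
    simp [h0, energy]
  set R := ∑ s, r s with hR
  have hR0 : 0 < R := sum_pos (fun s _ => hr s) univ_nonempty
  set μ : B → ℝ := fun s => r s / R
  have hrμ : r = fun s => R * μ s := by
    funext s
    simp only [μ]
    field_simp
  have h0 : ∀ s, 0 ≤ μ s := fun s => div_nonneg (hr s).le hR0.le
  have h1 : ∑ s, μ s = 1 := by
    simp only [μ]
    rw [← sum_div, ← hR, div_self hR0.ne']
  have he : ∀ ν, energy cs r ν = R * ∑ s, μ s * en (len cs) (cs.simple s) ν.1 := by
    intro ν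
    unfold energy
    rw [mul_sum]
    refine sum_congr rfl fun s _ => ?_
    simp only [μ]
    field_simp
  obtain ⟨b1, b2⟩ := bounds (len cs) (len_inv cs)
    (fun g h => by unfold len; exact_mod_cast cs.length_mul_le g h) (by simp [len]) (cnd cs)
    cs.simple cs.simple_mul_simple_self μ h0 h1
  obtain ⟨C, hC⟩ := b2 ν.1 ν.2
  have hΦ := b1 ((⨅ ν, energy cs r ν) / R) (fun ν hν => by
    rw [div_le_iff₀' hR0, ← he ⟨ν, hν⟩]
    exact ciInf_le (bdd cs r fun s => (hr s).le) _)
  refine ⟨C, fun t ht => ?_⟩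
  have hb := pois_bounds (R * t) (by positivity) _ _ _ C
    (div_nonneg (le_ciInf (energy_nonneg cs r fun s => (hr s).le)) hR0.le) hΦ hC
  have hm' : meanDist cs r t = ∑' n : ℕ, Real.exp (-(R * t)) * ((R * t) ^ n / n.factorial) *
      (P cs.simple μ)^[n] (len cs) 1 := by
    rw [hm]
    congr 1
    funext n
    conv_lhs => enter [2]; rw [hrμ, P_scale]
    rw [neg_mul, mul_pow]
    ring
  rw [hm', he]
  refine ⟨le_of_eq_of_le ?_ hb.1, hb.2.trans_eq (by ring)⟩
  field_simp

theorem result (B W : Type) [Fintype B] [Group W] (M : CoxeterMatrix B)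
    (cs : CoxeterSystem M W) :
    ∃ σ : (B → ℝ) → ℝ,
      (∀ r : B → ℝ, (∀ s, 0 < r s) →
        Tendsto (fun t : ℝ => meanDist cs r t / t) atTop (𝓝 (σ r))) ∧
      ConcaveOn ℝ {r : B → ℝ | ∀ s, 0 < r s} σ := by
  refine ⟨fun r => ⨅ ν, energy cs r ν, fun r hr => ?_, ?_, ?_⟩
  · rw [tendsto_order]
    constructor
    · intro a ha
      obtain ⟨C, hC⟩ := mean_bounds cs r hr (Classical.arbitrary _)
      filter_upwards [eventually_gt_atTop 0] with t ht
      refine ha.trans_le ?_
      rw [le_div_iff₀' ht]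
      exact (hC t ht.le).1
    · intro a ha
      obtain ⟨ν, hν⟩ := exists_lt_of_ciInf_lt ha
      obtain ⟨C, hC⟩ := mean_bounds cs r hr ν
      have ht : Tendsto (fun t : ℝ => energy cs r ν + C / t) atTop (𝓝 (energy cs r ν + 0)) :=
        tendsto_const_nhds.add (tendsto_const_nhds.div_atTop tendsto_id)
      rw [add_zero] at ht
      filter_upwards [eventually_gt_atTop 0, ht.eventually (gt_mem_nhds hν)] with t ht h2
      refine lt_of_le_of_lt ?_ h2
      rw [div_le_iff₀' ht]
      refine (hC t ht.le).2.trans_eq ?_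
      field_simp
  · intro x hx y hy a b ha hb hab s
    rcases ha.eq_or_lt with rfl | ha'
    · rw [zero_add] at hab
      simpa [hab] using hy s
    · have := hx s
      have := hy s
      simp only [Pi.add_apply, Pi.smul_apply, smul_eq_mul]
      positivity
  · intro x hx y hy a b ha hb _
    refine le_ciInf fun ν => ?_
    have h1 := ciInf_le (bdd cs x fun s => (hx s).le) ν
    have h2 := ciInf_le (bdd cs y fun s => (hy s).le) ν
    have h3 : energy cs (a • x + b • y) ν = a * energy cs x ν + b * energy cs y ν := by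
      unfold energy
      rw [mul_sum, mul_sum, ← sum_add_distrib]
      refine sum_congr rfl fun s _ => ?_
      simp only [Pi.add_apply, Pi.smul_apply, smul_eq_mul]
      ring
    rw [h3, smul_eq_mul, smul_eq_mul]
    exact add_le_add (mul_le_mul_of_nonneg_left h1 ha) (mul_le_mul_of_nonneg_left h2 hb)

end Pool.Agent.Results.MP_47d77c_pr.Concave
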